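import Mathlib
import Pool.Agent.W962.Generic.IsoC

/-!
# How many pairs are covered by a query
-/

set_option autoImplicit false

namespace Pool.Agent.W962.Generic

open MvPolynomial

/-- The block `b` of variables. -/
def ablk (n : ℕ) (b : Fin 2) : Finset (Fin 2 × Fin n) := Finset.univ.filter fun v => v.1 = b

theorem cover_index {n : ℕ} (d k : ℕ) (W W₂ : Finset (MvPolynomial (Fin 2 × Fin n) ℤ))
    (hsub : W₂ ⊆ W) (hk : W.card < 2 ^ (k + 1)) (hd : ∀ f ∈ W, f.totalDegree ≤ d)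
    (h00 : ∀ f ∈ W, coeff 0 f = 0) (C' : Finset (Fin n × Fin n))
    (hC : ∀ T ∈ C', ∃ f ∈ W₂, ∃ g ∈ W, DirC (ablk n 0) f g (0, T.1) ∧ DirC (ablk n 1) f g (1, T.2)) :
    C'.card ≤ 2 * (W₂.card * (d * k * n)) + W.card * (d * k) ^ 2 := by
  classical
  obtain ⟨r0, -, hr0⟩ := peelC (ablk n 0) d k W.card W rfl hk hd h00
  obtain ⟨r1, -, hr1⟩ := peelC (ablk n 1) d k W.card W rfl hk hd h00
  let A0 : MvPolynomial (Fin 2 × Fin n) ℤ → Finset (Fin 2 × Fin n) := fun h =>
    dirsC (ablk n 0) (W.filter fun g => r0 h ≤ r0 g) h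
  let A1 : MvPolynomial (Fin 2 × Fin n) ℤ → Finset (Fin 2 × Fin n) := fun h =>
    dirsC (ablk n 1) (W.filter fun g => r1 h ≤ r1 g) h
  let D0 : MvPolynomial (Fin 2 × Fin n) ℤ → Finset (Fin n) := fun h =>
    Finset.univ.filter fun i => ((0, i) : Fin 2 × Fin n) ∈ A0 h
  let D1 : MvPolynomial (Fin 2 × Fin n) ℤ → Finset (Fin n) := fun h =>
    Finset.univ.filter fun i => ((1, i) : Fin 2 × Fin n) ∈ A1 h
  have hD0 : ∀ h ∈ W, (D0 h).card ≤ d * k := by
    intro h hh
    refine le_trans ?_ (hr0 h hh)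
    refine Finset.card_le_card_of_injOn (fun i => ((0, i) : Fin 2 × Fin n)) ?_ ?_
    · intro i hi
      exact Finset.mem_coe.2 (Finset.mem_filter.1 (Finset.mem_coe.1 hi)).2
    · intro i _ j _ hij
      simpa using hij
  have hD1 : ∀ h ∈ W, (D1 h).card ≤ d * k := by
    intro h hh
    refine le_trans ?_ (hr1 h hh)
    refine Finset.card_le_card_of_injOn (fun i => ((1, i) : Fin 2 × Fin n)) ?_ ?_
    · intro i hi
      exact Finset.mem_coe.2 (Finset.mem_filter.1 (Finset.mem_coe.1 hi)).2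
    · intro i _ j _ hij
      simpa using hij
  have hcov : C' ⊆ (W₂.biUnion fun f => D0 f ×ˢ (Finset.univ : Finset (Fin n))) ∪
      (W₂.biUnion fun f => (Finset.univ : Finset (Fin n)) ×ˢ D1 f) ∪
      W.biUnion fun g => D0 g ×ˢ D1 g := by
    intro T hT
    obtain ⟨f, hf, g, hg, h0, h1⟩ := hC T hT
    have hfW := hsub hf
    have hm0 : ((0, T.1) : Fin 2 × Fin n) ∈ ablk n 0 := by simp [ablk]
    have hm1 : ((1, T.2) : Fin 2 × Fin n) ∈ ablk n 1 := by simp [ablk]
    by_cases c0 : r0 f ≤ r0 g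
    · refine Finset.mem_union_left _ (Finset.mem_union_left _ (Finset.mem_biUnion.2 ⟨f, hf,
        Finset.mem_product.2 ⟨Finset.mem_filter.2 ⟨Finset.mem_univ _, ?_⟩, Finset.mem_univ _⟩⟩))
      exact Finset.mem_filter.2 ⟨hm0, g, Finset.mem_filter.2 ⟨hg, c0⟩, h0⟩
    by_cases c1 : r1 f ≤ r1 g
    · refine Finset.mem_union_left _ (Finset.mem_union_right _ (Finset.mem_biUnion.2 ⟨f, hf,
        Finset.mem_product.2 ⟨Finset.mem_univ _, Finset.mem_filter.2 ⟨Finset.mem_univ _, ?_⟩⟩⟩))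
      exact Finset.mem_filter.2 ⟨hm1, g, Finset.mem_filter.2 ⟨hg, c1⟩, h1⟩
    refine Finset.mem_union_right _ (Finset.mem_biUnion.2 ⟨g, hg,
        Finset.mem_product.2 ⟨Finset.mem_filter.2 ⟨Finset.mem_univ _, ?_⟩,
          Finset.mem_filter.2 ⟨Finset.mem_univ _, ?_⟩⟩⟩)
    · exact Finset.mem_filter.2 ⟨hm0, f, Finset.mem_filter.2 ⟨hfW, by omega⟩, h0.symm⟩
    · exact Finset.mem_filter.2 ⟨hm1, f, Finset.mem_filter.2 ⟨hfW, by omega⟩, h1.symm⟩
  have b1 : (W₂.biUnion fun f => D0 f ×ˢ (Finset.univ : Finset (Fin n))).card ≤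
      W₂.card * (d * k * n) := by
    refine Finset.card_biUnion_le.trans ?_
    rw [← smul_eq_mul, ← Finset.sum_const]
    refine Finset.sum_le_sum fun f hf => ?_
    rw [Finset.card_product, Finset.card_univ, Fintype.card_fin]
    exact Nat.mul_le_mul_right _ (hD0 f (hsub hf))
  have b2 : (W₂.biUnion fun f => (Finset.univ : Finset (Fin n)) ×ˢ D1 f).card ≤
      W₂.card * (d * k * n) := by
    refine Finset.card_biUnion_le.trans ?_
    rw [← smul_eq_mul, ← Finset.sum_const]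
    refine Finset.sum_le_sum fun f hf => ?_
    rw [Finset.card_product, Finset.card_univ, Fintype.card_fin, mul_comm]
    exact Nat.mul_le_mul_right _ (hD1 f (hsub hf))
  have b3 : (W.biUnion fun g => D0 g ×ˢ D1 g).card ≤ W.card * (d * k) ^ 2 := by
    refine Finset.card_biUnion_le.trans ?_
    rw [← smul_eq_mul, ← Finset.sum_const]
    refine Finset.sum_le_sum fun f hf => ?_
    rw [Finset.card_product, sq]
    exact Nat.mul_le_mul (hD0 f hf) (hD1 f hf)
  calc C'.card ≤ _ := Finset.card_le_card hcov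
    _ ≤ _ := (Finset.card_union_le _ _).trans (Nat.add_le_add (Finset.card_union_le _ _) le_rfl)
    _ ≤ (W₂.card * (d * k * n) + W₂.card * (d * k * n)) + W.card * (d * k) ^ 2 :=
        Nat.add_le_add (Nat.add_le_add b1 b2) b3
    _ = _ := by ring

end Pool.Agent.W962.Generic
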