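import Mathlib
import Pool.Agent.W962.Generic.Model

/-!
# Data structures for 3SUM-Indexing that use the numbers of the two arrays only through ring
# operations and tests of closeness
-/

set_option autoImplicit false

namespace Pool.Agent.W962.Generic

/-- The run of the algorithm `A` on the input `x`, when the values in the list `init` have been
computed before: the values after `t` further steps (the last value comes first), and the answers
to the `t` new values. -/
noncomputable def RingAlgorithm.runFrom {σ : Type} {d : ℕ} (A : RingAlgorithm σ d) (q K : ℤ)
    (x : σ → ℤ) (init : List ℤ) : ℕ → List ℤ × List (List (Option ℤ) × ℤ × Option ℤ)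
  | 0 => (init, [])
  | t + 1 =>
    let s := A.runFrom q K x init t
    let v := MvPolynomial.eval x (A.next s.2)
    (v :: s.1, answer q K s.1 v :: s.2)

/-- A data structure for two arrays of `n` integers.  The preprocessing algorithm `pre` computes
values of polynomials of degree at most `d` in the numbers of the two arrays.  When `h` is the list
of the answers it has received, the values of the polynomials `store h i`, `i < S`, are stored, and
`query h z` is the algorithm which answers the query `z`. -/
structure RingIndex (n d S : ℕ) where
  pre : RingAlgorithm (Fin 2 × Fin n) d
  store : List (List (Option ℤ) × ℤ × Option ℤ) → Fin S → MvPolynomial (Fin 2 × Fin n) ℤ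
  store_degree : ∀ h i, (store h i).totalDegree ≤ d
  query : List (List (Option ℤ) × ℤ × Option ℤ) → ℤ → RingAlgorithm (Fin 2 × Fin n) d

/-- The reply to the query `z`, when the numbers of the arrays are given by `x`, the preprocessing
computes `P` values, and the query algorithm computes `T` values. -/
noncomputable def RingIndex.reply {n d S : ℕ} (D : RingIndex n d S) (q K : ℤ) (P T : ℕ)
    (x : Fin 2 × Fin n → ℤ) (z : ℤ) : Bool :=
  let h := (D.pre.run q K x P).2
  (D.query h z).output ((D.query h z).runFrom q K x
    (List.ofFn fun i => MvPolynomial.eval x (D.store h i)) T).2

end Pool.Agent.W962.Generic
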