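import Mathlib
import Pool.Agent.W962.Index.Model
import Pool.Agent.W962.Generic.Main
import Pool.Agent.W962.Generic.IsoC

/-!
# Runs which start with stored values
-/

set_option autoImplicit false

namespace Pool.Agent.W962.Generic

open MvPolynomial

variable {σ : Type} {d : ℕ}

/-- The run on a typical input. -/
noncomputable def symFrom (A : RingAlgorithm σ d) (q K : ℤ) (init : List (MvPolynomial σ ℤ)) :
    ℕ → List (MvPolynomial σ ℤ) × List (List (Option ℤ) × ℤ × Option ℤ)
  | 0 => (init, [])
  | t + 1 =>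
    let s := symFrom A q K init t
    let f := A.next s.2
    (f :: s.1, symAnswer q K s.1 f :: s.2)

theorem runFrom_eq (A : RingAlgorithm σ d) (q K : ℤ) (x : σ → ℤ) (init : List (MvPolynomial σ ℤ))
    (t : ℕ) (h : Faithful q K x (symFrom A q K init t).1) :
    A.runFrom q K x (init.map (eval x)) t =
      ((symFrom A q K init t).1.map (eval x), (symFrom A q K init t).2) := by
  classical
  induction t with
  | zero => rfl
  | succ t ih =>
    have h' : Faithful q K x (symFrom A q K init t).1 :=
      ⟨fun f hf g hg => h.close f (List.mem_cons_of_mem _ hf) g (List.mem_cons_of_mem _ hg),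
        fun f hf => h.res f (List.mem_cons_of_mem _ hf),
        fun f hf => h.small f (List.mem_cons_of_mem _ hf)⟩
    have ih := ih h'
    have hmem : A.next (symFrom A q K init t).2 ∈ (symFrom A q K init (t + 1)).1 :=
      List.mem_cons_self
    simp only [RingAlgorithm.runFrom, symFrom, ih, List.map_cons, Prod.mk.injEq, List.cons.injEq,
      true_and, and_true]
    set f := A.next (symFrom A q K init t).2 with hf
    refine Prod.ext ?_ (Prod.ext ?_ ?_)
    · simp only [answer, symAnswer, List.map_map]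
      refine List.map_congr_left fun g hg => ?_
      simp only [Function.comp_apply]
      have h3 := h.close g (List.mem_cons_of_mem _ hg) f hmem
      rw [← map_sub] at h3 ⊢
      exact ite_eq K x (g - f) h3
    · exact h.res f hmem
    · simp only [answer, symAnswer]
      exact ite_eq K x f (h.small f hmem)

theorem symFrom_length (A : RingAlgorithm σ d) (q K : ℤ) (init : List (MvPolynomial σ ℤ)) (t : ℕ) :
    (symFrom A q K init t).1.length = t + init.length := by
  induction t with
  | zero => simp [symFrom]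
  | succ t ih => simp only [symFrom, List.length_cons, ih]; omega

theorem symFrom_degree (A : RingAlgorithm σ d) (q K : ℤ) (init : List (MvPolynomial σ ℤ))
    (hi : ∀ f ∈ init, f.totalDegree ≤ d) (t : ℕ) :
    ∀ f ∈ (symFrom A q K init t).1, f.totalDegree ≤ d := by
  induction t with
  | zero => simpa [symFrom] using hi
  | succ t ih =>
    intro f hf
    simp only [symFrom, List.mem_cons] at hf
    rcases hf with rfl | hf
    · exact A.degree_le _
    · exact ih f hf

/-- The values computed after the start. -/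
theorem symFrom_split (A : RingAlgorithm σ d) (q K : ℤ) (init : List (MvPolynomial σ ℤ)) (t : ℕ) :
    ∃ new : List (MvPolynomial σ ℤ), new.length = t ∧ (symFrom A q K init t).1 = new ++ init := by
  induction t with
  | zero => exact ⟨[], rfl, rfl⟩
  | succ t ih =>
    obtain ⟨new, h1, h2⟩ := ih
    exact ⟨A.next (symFrom A q K init t).2 :: new, by simp [h1], by simp [symFrom, h2]⟩

theorem coeff_zero_eq_eval (f : MvPolynomial σ ℤ) : coeff 0 f = eval 0 f := by
  rw [← constantCoeff_eq, ← eval_zero]

open Classical in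
/-- The polynomials of `W` without their constant terms. -/
noncomputable def nf (W : Finset (MvPolynomial σ ℤ)) : Finset (MvPolynomial σ ℤ) :=
  W.image fun f => f - C (eval 0 f)

theorem nf_card (W : Finset (MvPolynomial σ ℤ)) : (nf W).card ≤ W.card := by
  classical
  exact Finset.card_image_le

theorem mem_nf (W : Finset (MvPolynomial σ ℤ)) (f : MvPolynomial σ ℤ) :
    f ∈ nf W ↔ ∃ h ∈ W, h - C (eval 0 h) = f := by
  classical
  exact Finset.mem_image

theorem mem_normal (W : Finset (MvPolynomial σ ℤ)) (h : MvPolynomial σ ℤ) (hh : h ∈ W) :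
    h - C (eval 0 h) ∈ normal W := by
  classical
  exact Finset.mem_image.2 ⟨h, Finset.mem_insert_of_mem hh, rfl⟩

open Classical in
/-- The difference of two finite sets. -/
noncomputable def sd (A B : Finset (MvPolynomial σ ℤ)) : Finset (MvPolynomial σ ℤ) := A \ B

theorem mem_sd (A B : Finset (MvPolynomial σ ℤ)) (f : MvPolynomial σ ℤ) :
    f ∈ sd A B ↔ f ∈ A ∧ f ∉ B := by
  classical
  exact Finset.mem_sdiff

theorem sd_card (A B : Finset (MvPolynomial σ ℤ)) : (sd A B).card ≤ A.card :=
  Finset.card_le_card fun f hf => ((mem_sd A B f).1 hf).1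

open Classical in
/-- The union of two finite sets. -/
noncomputable def un (A B : Finset (MvPolynomial σ ℤ)) : Finset (MvPolynomial σ ℤ) := A ∪ B

theorem mem_un (A B : Finset (MvPolynomial σ ℤ)) (f : MvPolynomial σ ℤ) :
    f ∈ un A B ↔ f ∈ A ∨ f ∈ B := by
  classical
  exact Finset.mem_union

theorem un_card (A B : Finset (MvPolynomial σ ℤ)) : (un A B).card ≤ A.card + B.card := by
  classical
  exact Finset.card_union_le _ _

theorem normal_coeff (W : Finset (MvPolynomial σ ℤ)) : ∀ f ∈ normal W, coeff 0 f = 0 := by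
  classical
  intro f hf
  obtain ⟨g, -, rfl⟩ := Finset.mem_image.1 hf
  rw [coeff_zero_eq_eval]
  simp

/-- The differences in which a new polynomial occurs. -/
theorem covered_new (K : ℕ) (W W₀ : Finset (MvPolynomial σ ℤ)) (χ : MvPolynomial σ ℤ)
    (x₀ : σ → ℤ) (hχ : eval x₀ χ = 0) (p : MvPolynomial σ ℤ) (hp : p ∈ diffs K W)
    (hp' : p ∉ diffs K W₀) (hdvd : χ ∣ p) :
    ∃ h ∈ W, h ∉ W₀ ∧ ∃ g ∈ normal W, h - C (eval 0 h) ≠ g ∧
      ∃ c : ℤ, χ ∣ (h - C (eval 0 h)) - g + C c := by
  classical
  obtain ⟨z, hz, rfl⟩ := Finset.mem_image.1 hp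
  obtain ⟨hz1, hz2⟩ := Finset.mem_filter.1 hz
  have hz3 := Finset.mem_product.1 (Finset.mem_product.1 hz1).1
  have hz4 := (Finset.mem_product.1 hz1).2
  -- no nonzero constant is divisible by `χ`
  have hconst : ∀ c : ℤ, χ ∣ C c → c = 0 := by
    rintro c ⟨r, hr⟩
    have := congrArg (eval x₀) hr
    rw [map_mul, hχ, zero_mul, eval_C] at this
    exact this
  have key : ∀ h g : MvPolynomial σ ℤ, ∀ c : ℤ, h - g ≠ C c → χ ∣ h - g - C c →
      h - C (eval 0 h) ≠ g - C (eval 0 g) ∧
        ∃ c : ℤ, χ ∣ (h - C (eval 0 h)) - (g - C (eval 0 g)) + C c := by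
    intro h g c hne hd
    refine ⟨fun heq => ?_, eval 0 h - eval 0 g - c, ?_⟩
    · have e1 : h - g = C (eval 0 h - eval 0 g) := by
        rw [C_sub]
        linear_combination heq
      have e2 : h - g - C c = C (eval 0 h - eval 0 g - c) := by
        rw [e1, ← C_sub]
      rw [e2] at hd
      have e3 := hconst _ hd
      exact hne (by rw [e1]; congr 1; omega)
    · have e : (h - C (eval 0 h)) - (g - C (eval 0 g)) + C (eval 0 h - eval 0 g - c) =
          h - g - C c := by
        rw [C_sub, C_sub]; ring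
      rw [e]
      exact hd
  have hmem : ∀ g ∈ insert 0 W, g - C (eval 0 g) ∈ normal W := fun g hg =>
    Finset.mem_image.2 ⟨g, hg, rfl⟩
  by_cases c1 : z.1.1 ∈ insert 0 W₀
  · by_cases c2 : z.1.2 ∈ insert 0 W₀
    · exact absurd (Finset.mem_image.2 ⟨z, Finset.mem_filter.2 ⟨Finset.mem_product.2
        ⟨Finset.mem_product.2 ⟨c1, c2⟩, hz4⟩, hz2⟩, rfl⟩) hp'
    · have h1 : z.1.2 ∈ W ∧ z.1.2 ∉ W₀ := by
        refine ⟨?_, fun h => c2 (Finset.mem_insert_of_mem h)⟩
        rcases Finset.mem_insert.1 hz3.2 with h | h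
        · exact absurd (h ▸ Finset.mem_insert_self _ _) c2
        · exact h
      have hd2 : χ ∣ z.1.2 - z.1.1 - C (-z.2) := by
        have e : z.1.2 - z.1.1 - C (-z.2) = -(z.1.1 - z.1.2 - C z.2) := by
          rw [C_neg]; ring
        rw [e]
        exact (dvd_neg).2 hdvd
      obtain ⟨h3, h4⟩ := key z.1.2 z.1.1 (-z.2) (fun h => hz2 (by
        have : z.1.1 - z.1.2 = -(z.1.2 - z.1.1) := by ring
        rw [this, h, C_neg, neg_neg])) hd2
      exact ⟨z.1.2, h1.1, h1.2, _, hmem _ hz3.1, h3, h4⟩
  · have h1 : z.1.1 ∈ W ∧ z.1.1 ∉ W₀ := by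
      refine ⟨?_, fun h => c1 (Finset.mem_insert_of_mem h)⟩
      rcases Finset.mem_insert.1 hz3.1 with h | h
      · exact absurd (h ▸ Finset.mem_insert_self _ _) c1
      · exact h
    obtain ⟨h3, h4⟩ := key z.1.1 z.1.2 z.2 hz2 hdvd
    exact ⟨z.1.1, h1.1, h1.2, _, hmem _ hz3.2, h3, h4⟩

end Pool.Agent.W962.Generic
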