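import Mathlib
import Pool.Agent.W962.Index.Core

/-!
# Randomised data structures: from algorithms to sets of polynomials
-/

set_option autoImplicit false

namespace Pool.Agent.W962.Generic

open MvPolynomial

variable {σ : Type} {d : ℕ} [Fintype σ] [DecidableEq σ]

/-- The substitution which replaces `X v` by `X v - X u`. -/
noncomputable def sub2 (v u : σ) (i : σ) : MvPolynomial σ ℤ :=
  if i = v then X v - X u else X i

theorem aeval_sub2_ne_zero (v u : σ) (huv : u ≠ v) (r : MvPolynomial σ ℤ) (hr : r ≠ 0) :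
    aeval (sub2 v u) r ≠ 0 := by
  intro h
  let τ : σ → MvPolynomial σ ℤ := fun i => if i = v then X v + X u else X i
  have h1 : aeval τ (aeval (sub2 v u) r) = r := by
    have h2 : (aeval τ : MvPolynomial σ ℤ →ₐ[ℤ] MvPolynomial σ ℤ).comp (aeval (sub2 v u)) =
        AlgHom.id ℤ (MvPolynomial σ ℤ) := by
      apply MvPolynomial.algHom_ext
      intro i
      simp only [AlgHom.coe_comp, Function.comp_apply, aeval_X, AlgHom.coe_id, id_eq]
      by_cases hi : i = v
      · subst hi
        simp only [sub2, if_true, map_sub, aeval_X, τ, if_neg huv]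
        ring
      · simp only [sub2, if_neg hi, aeval_X, τ]
    have := congrArg (fun φ => φ r) h2
    simpa using this
  rw [h, map_zero] at h1
  exact hr h1.symm

theorem totalDegree_sub2 (v u : σ) (r : MvPolynomial σ ℤ) :
    (aeval (sub2 v u) r).totalDegree ≤ r.totalDegree := by
  refine totalDegree_aeval_le _ (fun i => ?_) r
  unfold sub2
  split_ifs
  · refine (totalDegree_sub _ _).trans (max_le ?_ ?_) <;> simp
  · simp

theorem plant_eq (v u : σ) (z : ℤ) (x : σ → ℤ) :
    plant v (X u - C z) x = Function.update x v (z - x u) := by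
  unfold plant
  congr 1
  simp

/-- Planting with a random number `z` gives a random input. -/
theorem count_swap (v u : σ) (huv : u ≠ v) (S : Finset ℤ) (r : MvPolynomial σ ℤ) (hr : r ≠ 0)
    (hd : r.totalDegree ≤ d) :
    S.card * ∑ z ∈ S, ((Fintype.piFinset fun _ : σ => S).filter
        fun x => eval (plant v (X u - C z) x) r = 0).card ≤
      d * (S.card * (Fintype.piFinset fun _ : σ => S).card) := by
  classical
  set cube := Fintype.piFinset fun _ : σ => S with hcube
  have h1 : ∑ z ∈ S, (cube.filter fun x => eval (plant v (X u - C z) x) r = 0).card =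
      ((S ×ˢ cube).filter fun w => eval (plant v (X u - C w.1) w.2) r = 0).card := by
    rw [Finset.card_filter, Finset.sum_product]
    refine Finset.sum_congr rfl fun z _ => ?_
    rw [Finset.card_filter]
  have h2 : ((S ×ˢ cube).filter fun w => eval (plant v (X u - C w.1) w.2) r = 0).card ≤
      (S ×ˢ (cube.filter fun x => eval x (aeval (sub2 v u) r) = 0)).card := by
    refine Finset.card_le_card_of_injOn (fun w => (w.2 v, Function.update w.2 v w.1)) ?_ ?_
    · intro w hw
      obtain ⟨hw1, hw2⟩ := Finset.mem_filter.1 (Finset.mem_coe.1 hw)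
      obtain ⟨hz, hx⟩ := Finset.mem_product.1 hw1
      rw [Fintype.mem_piFinset] at hx
      refine Finset.mem_coe.2 (Finset.mem_product.2 ⟨hx v, Finset.mem_filter.2
        ⟨Fintype.mem_piFinset.2 fun i => ?_, ?_⟩⟩)
      · by_cases hi : i = v
        · subst hi; simpa using hz
        · simp only [Function.update_of_ne hi]; exact hx i
      · rw [eval_aeval, ← hw2, plant_eq]
        congr 2
        funext i
        by_cases hi : i = v
        · subst hi
          simp only [sub2, if_true, map_sub, eval_X, Function.update_self,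
            Function.update_of_ne huv]
        · simp only [sub2, if_neg hi, eval_X, Function.update_of_ne hi]
    · intro w _ w' _ hww
      simp only [Prod.mk.injEq] at hww
      obtain ⟨e1, e2⟩ := hww
      refine Prod.ext ?_ ?_
      · have := congrFun e2 v
        simpa using this
      · funext i
        by_cases hi : i = v
        · subst hi; exact e1
        · have := congrFun e2 i
          simpa only [Function.update_of_ne hi] using this
  have h3 := schwartz_zippel (aeval (sub2 v u) r) (aeval_sub2_ne_zero v u huv r hr) d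
    ((totalDegree_sub2 v u r).trans hd) S
  rw [h1]
  calc S.card * _ ≤ S.card * (S ×ˢ (cube.filter fun x => eval x (aeval (sub2 v u) r) = 0)).card :=
        Nat.mul_le_mul_left _ h2
    _ = S.card * (S.card * (cube.filter fun x => eval x (aeval (sub2 v u) r) = 0).card) := by
        rw [Finset.card_product]
    _ ≤ S.card * (d * cube.card) := Nat.mul_le_mul_left _ h3
    _ = _ := by ring

variable {Λ : Type} [Fintype Λ]

/-- The deterministic part of the reduction, for one query. -/
theorem both_count (acc : (σ → ℤ) → Bool) (q : ℤ) (PD QD : Finset (MvPolynomial σ ℤ)) (out : Bool)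
    (hacc : ∀ x, (∀ i, q ∣ x i) → (∀ p ∈ PD, eval x p ≠ 0) → (∀ p ∈ QD, eval x p ≠ 0) →
      acc x = out)
    (hPd : ∀ p ∈ PD, p.totalDegree ≤ d) (hQd : ∀ p ∈ QD, p.totalDegree ≤ d)
    (hP0 : ∀ p ∈ PD, p ≠ 0) (hQ0 : ∀ p ∈ QD, p ≠ 0)
    (S : Finset ℤ) (hSq : ∀ s ∈ S, q ∣ s) (v u : Λ → σ)
    (z : ℤ) (hzq : q ∣ z) (Pr : (σ → ℤ) → Prop)
    (hP : ∀ x ∈ Fintype.piFinset (fun _ : σ => S), ∀ T, Pr (plant (v T) (X (u T) - C z) x))
    (e : ℕ) (hPe : ∀ F : Finset (σ → ℤ), (∀ x ∈ F, x ∈ Fintype.piFinset (fun _ : σ => S) ∧ Pr x) →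
      S.card * F.card ≤ e * (Fintype.piFinset (fun _ : σ => S)).card)
    (both : Finset ((σ → ℤ) × Λ))
    (hboth : ∀ w ∈ both, w.1 ∈ Fintype.piFinset (fun _ : σ => S) ∧ (acc w.1 = true ↔ Pr w.1) ∧
      (acc (plant (v w.2) (X (u w.2) - C z) w.1) = true ↔
        Pr (plant (v w.2) (X (u w.2) - C z) w.1)))
    (Cov : Finset Λ) (hCov : ∀ T, (∃ p ∈ QD, X (v T) + (X (u T) - C z) ∣ p) → T ∈ Cov) :
    S.card * both.card ≤ Fintype.card Λ * ((PD.card + QD.card) * d *
        (Fintype.piFinset (fun _ : σ => S)).card) +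
      Fintype.card Λ * (e * (Fintype.piFinset (fun _ : σ => S)).card) +
      S.card * ((Fintype.piFinset (fun _ : σ => S)).card * Cov.card) +
      Fintype.card Λ * (QD.card * d * (Fintype.piFinset (fun _ : σ => S)).card) +
      ∑ T : Λ, ∑ r ∈ PD, S.card * ((Fintype.piFinset fun _ : σ => S).filter
        fun x => eval (plant (v T) (X (u T) - C z) x) r = 0).card := by
  classical
  set cube := Fintype.piFinset (fun _ : σ => S) with hcube
  set bad1 := cube.filter fun x => ∃ r ∈ PD ∪ QD, eval x r = 0 with hbad1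
  set badP : Λ → Finset (σ → ℤ) := fun T =>
    cube.filter fun x => ∃ r ∈ PD, eval (plant (v T) (X (u T) - C z) x) r = 0 with hbadP
  set badQ : Λ → Finset (σ → ℤ) := fun T =>
    cube.filter fun x => ∃ r ∈ QD, eval (plant (v T) (X (u T) - C z) x) r = 0 with hbadQ
  have hb1 : S.card * bad1.card ≤ (PD.card + QD.card) * d * cube.card := by
    have hsub : bad1 ⊆ (PD ∪ QD).biUnion fun r => cube.filter fun x => eval x r = 0 := by
      intro x hx
      obtain ⟨hx1, r, hr, hxr⟩ := Finset.mem_filter.1 hx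
      exact Finset.mem_biUnion.2 ⟨r, hr, Finset.mem_filter.2 ⟨hx1, hxr⟩⟩
    calc S.card * bad1.card ≤ S.card * ∑ r ∈ PD ∪ QD, (cube.filter fun x => eval x r = 0).card :=
          Nat.mul_le_mul_left _ ((Finset.card_le_card hsub).trans Finset.card_biUnion_le)
      _ = ∑ r ∈ PD ∪ QD, S.card * (cube.filter fun x => eval x r = 0).card := by
          rw [Finset.mul_sum]
      _ ≤ ∑ r ∈ PD ∪ QD, d * cube.card := by
          refine Finset.sum_le_sum fun r hr => ?_
          rcases Finset.mem_union.1 hr with hr | hr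
          · exact schwartz_zippel r (hP0 r hr) d (hPd r hr) S
          · exact schwartz_zippel r (hQ0 r hr) d (hQd r hr) S
      _ = (PD ∪ QD).card * (d * cube.card) := by rw [Finset.sum_const, smul_eq_mul]
      _ ≤ (PD.card + QD.card) * (d * cube.card) :=
          Nat.mul_le_mul_right _ (Finset.card_union_le _ _)
      _ = _ := by ring
  have hbQ : ∀ T, T ∉ Cov → S.card * (badQ T).card ≤ QD.card * d * cube.card := by
    intro T hT
    have hsub : badQ T ⊆ QD.biUnion fun r =>
        cube.filter fun x => eval (plant (v T) (X (u T) - C z) x) r = 0 := by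
      intro x hx
      obtain ⟨hx1, r, hr, hxr⟩ := Finset.mem_filter.1 hx
      exact Finset.mem_biUnion.2 ⟨r, hr, Finset.mem_filter.2 ⟨hx1, hxr⟩⟩
    calc S.card * (badQ T).card
        ≤ S.card * ∑ r ∈ QD, (cube.filter fun x =>
            eval (plant (v T) (X (u T) - C z) x) r = 0).card :=
          Nat.mul_le_mul_left _ ((Finset.card_le_card hsub).trans Finset.card_biUnion_le)
      _ = ∑ r ∈ QD, S.card *
          (cube.filter fun x => eval (plant (v T) (X (u T) - C z) x) r = 0).card := by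
          rw [Finset.mul_sum]
      _ ≤ ∑ r ∈ QD, d * cube.card := by
          refine Finset.sum_le_sum fun r hr => ?_
          refine count_plant (v T) (X (u T) - C z) ?_ S r (hQd r hr) fun hdvd => ?_
          · refine (totalDegree_sub _ _).trans (max_le (by simp) ?_)
            rw [totalDegree_C]
            exact Nat.zero_le _
          · exact hT (hCov T ⟨r, hr, hdvd⟩)
      _ = QD.card * (d * cube.card) := by rw [Finset.sum_const, smul_eq_mul]
      _ = _ := by ring
  have hbP : ∀ T, S.card * (badP T).card ≤ ∑ r ∈ PD, S.card * (cube.filter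
        fun x => eval (plant (v T) (X (u T) - C z) x) r = 0).card := by
    intro T
    have hsub : badP T ⊆ PD.biUnion fun r =>
        cube.filter fun x => eval (plant (v T) (X (u T) - C z) x) r = 0 := by
      intro x hx
      obtain ⟨hx1, r, hr, hxr⟩ := Finset.mem_filter.1 hx
      exact Finset.mem_biUnion.2 ⟨r, hr, Finset.mem_filter.2 ⟨hx1, hxr⟩⟩
    calc S.card * (badP T).card
        ≤ S.card * ∑ r ∈ PD, (cube.filter fun x =>
            eval (plant (v T) (X (u T) - C z) x) r = 0).card :=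
          Nat.mul_le_mul_left _ ((Finset.card_le_card hsub).trans Finset.card_biUnion_le)
      _ = _ := by rw [Finset.mul_sum]
  have hsub : both ⊆ ((bad1 ∪ cube.filter Pr) ×ˢ (Finset.univ : Finset Λ)) ∪ (cube ×ˢ Cov) ∪
      ((Finset.univ.filter fun T => T ∉ Cov).biUnion fun T => badQ T ×ˢ {T}) ∪
      (Finset.univ : Finset Λ).biUnion fun T => badP T ×ˢ {T} := by
    intro w hw
    obtain ⟨hx, h1, h2⟩ := hboth w hw
    by_cases hT : w.2 ∈ Cov
    · exact Finset.mem_union_left _ (Finset.mem_union_left _ (Finset.mem_union_right _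
        (Finset.mem_product.2 ⟨hx, hT⟩)))
    by_cases c1 : w.1 ∈ bad1
    · exact Finset.mem_union_left _ (Finset.mem_union_left _ (Finset.mem_union_left _
        (Finset.mem_product.2 ⟨Finset.mem_union_left _ c1, Finset.mem_univ _⟩)))
    by_cases c2 : Pr w.1
    · exact Finset.mem_union_left _ (Finset.mem_union_left _ (Finset.mem_union_left _
        (Finset.mem_product.2 ⟨Finset.mem_union_right _ (Finset.mem_filter.2 ⟨hx, c2⟩),
          Finset.mem_univ _⟩)))
    by_cases c3 : w.1 ∈ badQ w.2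
    · exact Finset.mem_union_left _ (Finset.mem_union_right _ (Finset.mem_biUnion.2 ⟨w.2,
          Finset.mem_filter.2 ⟨Finset.mem_univ _, hT⟩, Finset.mem_product.2
          ⟨c3, Finset.mem_singleton_self _⟩⟩))
    by_cases c4 : w.1 ∈ badP w.2
    · exact Finset.mem_union_right _ (Finset.mem_biUnion.2 ⟨w.2, Finset.mem_univ _,
        Finset.mem_product.2 ⟨c4, Finset.mem_singleton_self _⟩⟩)
    exfalso
    have hxq : ∀ i, q ∣ w.1 i := fun i => hSq _ (Fintype.mem_piFinset.1 hx i)
    have e1 : acc w.1 = out := by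
      refine hacc w.1 hxq (fun r hr h0 => c1 ?_) (fun r hr h0 => c1 ?_)
      · exact Finset.mem_filter.2 ⟨hx, r, Finset.mem_union_left _ hr, h0⟩
      · exact Finset.mem_filter.2 ⟨hx, r, Finset.mem_union_right _ hr, h0⟩
    have e2 : acc (plant (v w.2) (X (u w.2) - C z) w.1) = out := by
      refine hacc _ (fun i => ?_) (fun r hr h0 => c4 ?_) (fun r hr h0 => c3 ?_)
      · rw [plant_eq]
        by_cases hi : i = v w.2
        · rw [hi, Function.update_self]
          exact dvd_sub hzq (hxq _)
        · rw [Function.update_of_ne hi]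
          exact hxq i
      · exact Finset.mem_filter.2 ⟨hx, r, hr, h0⟩
      · exact Finset.mem_filter.2 ⟨hx, r, hr, h0⟩
    rw [e1] at h1
    rw [e2] at h2
    exact c2 (h1.1 (h2.2 (hP w.1 hx w.2)))
  have hcard : both.card ≤ (bad1.card + (cube.filter Pr).card) * Fintype.card Λ +
      cube.card * Cov.card + ∑ T ∈ Finset.univ.filter (fun T => T ∉ Cov), (badQ T).card +
      ∑ T : Λ, (badP T).card := by
    refine (Finset.card_le_card hsub).trans ((Finset.card_union_le _ _).trans
      (Nat.add_le_add ((Finset.card_union_le _ _).trans (Nat.add_le_add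
        ((Finset.card_union_le _ _).trans (Nat.add_le_add ?_ ?_)) ?_)) ?_))
    · rw [Finset.card_product, Finset.card_univ]
      exact Nat.mul_le_mul_right _ (Finset.card_union_le _ _)
    · rw [Finset.card_product]
    · refine Finset.card_biUnion_le.trans (Finset.sum_le_sum fun T _ => ?_)
      rw [Finset.card_product, Finset.card_singleton, mul_one]
    · refine Finset.card_biUnion_le.trans (Finset.sum_le_sum fun T _ => ?_)
      rw [Finset.card_product, Finset.card_singleton, mul_one]
  have hPe' : S.card * (cube.filter Pr).card ≤ e * cube.card :=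
    hPe _ fun x hx => Finset.mem_filter.1 hx
  have hsumQ : S.card * ∑ T ∈ Finset.univ.filter (fun T => T ∉ Cov), (badQ T).card ≤
      Fintype.card Λ * (QD.card * d * cube.card) := by
    rw [Finset.mul_sum]
    refine (Finset.sum_le_sum fun T hT => hbQ T (Finset.mem_filter.1 hT).2).trans ?_
    rw [Finset.sum_const, smul_eq_mul]
    exact Nat.mul_le_mul_right _ ((Finset.card_filter_le _ _).trans (by rw [Finset.card_univ]))
  have hsumP : S.card * ∑ T : Λ, (badP T).card ≤ ∑ T : Λ, ∑ r ∈ PD, S.card * (cube.filter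
        fun x => eval (plant (v T) (X (u T) - C z) x) r = 0).card := by
    rw [Finset.mul_sum]
    exact Finset.sum_le_sum fun T _ => hbP T
  calc S.card * both.card ≤ S.card * ((bad1.card + (cube.filter Pr).card) * Fintype.card Λ +
      cube.card * Cov.card + ∑ T ∈ Finset.univ.filter (fun T => T ∉ Cov), (badQ T).card +
      ∑ T : Λ, (badP T).card) := Nat.mul_le_mul_left _ hcard
    _ = Fintype.card Λ * (S.card * bad1.card) + Fintype.card Λ * (S.card * (cube.filter Pr).card) +
        S.card * (cube.card * Cov.card) +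
        S.card * ∑ T ∈ Finset.univ.filter (fun T => T ∉ Cov), (badQ T).card +
        S.card * ∑ T : Λ, (badP T).card := by ring
    _ ≤ _ := by
        gcongr

theorem tiny (a b : Prop) [Decidable a] [Decidable b] [Decidable (a ∧ b)] :
    (if b then 1 else 0) + (if a then 1 else 0) ≤ 1 + if a ∧ b then 1 else 0 := by
  by_cases ha : a <;> by_cases hb : b <;> simp [ha, hb]

/-- **Main reduction.** -/
theorem main2 {Ω : Type} (p : PMF Ω) (acc : Ω → ℤ → (σ → ℤ) → Bool) (q : ℤ)
    (PD : Ω → Finset (MvPolynomial σ ℤ)) (QD : Ω → ℤ → Finset (MvPolynomial σ ℤ)) (M : ℕ)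
    (hM : ∀ ω z, (PD ω).card + (QD ω z).card ≤ M)
    (out : Ω → ℤ → Bool)
    (hacc : ∀ ω z x, (∀ i, q ∣ x i) → (∀ r ∈ PD ω, eval x r ≠ 0) → (∀ r ∈ QD ω z, eval x r ≠ 0) →
      acc ω z x = out ω z)
    (hPd : ∀ ω, ∀ r ∈ PD ω, r.totalDegree ≤ d) (hQd : ∀ ω z, ∀ r ∈ QD ω z, r.totalDegree ≤ d)
    (hP0 : ∀ ω, ∀ r ∈ PD ω, r ≠ 0) (hQ0 : ∀ ω z, ∀ r ∈ QD ω z, r ≠ 0)
    (S : Finset ℤ) (hSq : ∀ s ∈ S, q ∣ s) (v u : Λ → σ) (huv : ∀ T, u T ≠ v T)
    (Pr : ℤ → (σ → ℤ) → Prop)
    (hP : ∀ z ∈ S, ∀ x ∈ Fintype.piFinset (fun _ : σ => S), ∀ T,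
      Pr z (plant (v T) (X (u T) - C z) x))
    (e : ℕ) (hPe : ∀ z ∈ S, ∀ F : Finset (σ → ℤ),
      (∀ x ∈ F, x ∈ Fintype.piFinset (fun _ : σ => S) ∧ Pr z x) →
      S.card * F.card ≤ e * (Fintype.piFinset (fun _ : σ => S)).card) (he : 12 * e ≤ S.card)
    (hS : 24 * (M * d) ≤ S.card) (hSpos : 0 < S.card)
    (h1 : ∀ z ∈ S, ∀ x ∈ Fintype.piFinset (fun _ : σ => S),
      (2 / 3 : ENNReal) ≤ p.toOuterMeasure {ω | acc ω z x = true ↔ Pr z x})
    (h2 : ∀ z ∈ S, ∀ x ∈ Fintype.piFinset (fun _ : σ => S), ∀ T,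
      (2 / 3 : ENNReal) ≤ p.toOuterMeasure
        {ω | acc ω z (plant (v T) (X (u T) - C z) x) = true ↔
          Pr z (plant (v T) (X (u T) - C z) x)}) :
    ∃ ω, ∃ z ∈ S, ∃ C' : Finset Λ, Fintype.card Λ ≤ 6 * C'.card ∧
        ∀ T ∈ C', ∃ r ∈ QD ω z, X (v T) + (X (u T) - C z) ∣ r := by
  classical
  set cube := Fintype.piFinset (fun _ : σ => S) with hcube
  have hcubepos : 0 < cube.card := by
    rw [hcube, Fintype.card_piFinset, Finset.prod_const]
    exact pow_pos hSpos _
  -- Yao
  let I : Finset ((ℤ × ((σ → ℤ) × Λ)) × Bool) :=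
    (S ×ˢ (cube ×ˢ Finset.univ)) ×ˢ Finset.univ
  let y : (ℤ × ((σ → ℤ) × Λ)) × Bool → (σ → ℤ) := fun i =>
    if i.2 then plant (v i.1.2.2) (X (u i.1.2.2) - C i.1.1) i.1.2.1 else i.1.2.1
  obtain ⟨ω, hω⟩ := exists_good p I
    (fun i => {ω | acc ω i.1.1 (y i) = true ↔ Pr i.1.1 (y i)}) (by
      rintro ⟨⟨z, x, T⟩, b⟩ hi
      obtain ⟨hi1, -⟩ := Finset.mem_product.1 hi
      obtain ⟨hz, hi2⟩ := Finset.mem_product.1 hi1
      obtain ⟨hx, -⟩ := Finset.mem_product.1 hi2
      cases b
      · exact h1 z hz x hx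
      · exact h2 z hz x hx T)
  refine ⟨ω, ?_⟩
  let Cov : ℤ → Finset Λ := fun z => Finset.univ.filter fun T : Λ =>
    ∃ r ∈ QD ω z, X (v T) + (X (u T) - C z) ∣ r
  by_contra hcon
  have hcon' : ∀ z ∈ S, 6 * (Cov z).card < Fintype.card Λ := by
    intro z hz
    by_contra h
    exact hcon ⟨z, hz, Cov z, not_lt.1 h, fun T hT => (Finset.mem_filter.1 hT).2⟩
  obtain ⟨z₀, hz₀⟩ := Finset.card_pos.1 hSpos
  have hΛpos : 0 < Fintype.card Λ := lt_of_le_of_lt (Nat.zero_le _) (hcon' z₀ hz₀)
  let both : ℤ → Finset ((σ → ℤ) × Λ) := fun z => (cube ×ˢ (Finset.univ : Finset Λ)).filter fun w =>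
    (acc ω z w.1 = true ↔ Pr z w.1) ∧
      (acc ω z (plant (v w.2) (X (u w.2) - C z) w.1) = true ↔
        Pr z (plant (v w.2) (X (u w.2) - C z) w.1))
  have hcorrect : (I.filter fun i => ω ∈ {ω | acc ω i.1.1 (y i) = true ↔ Pr i.1.1 (y i)}).card ≤
      ∑ z ∈ S, (cube.card * Fintype.card Λ + (both z).card) := by
    rw [Finset.card_filter, Finset.sum_product, Finset.sum_product]
    refine Finset.sum_le_sum fun z _ => ?_
    have e2 : cube.card * Fintype.card Λ =
        ∑ w ∈ cube ×ˢ (Finset.univ : Finset Λ), 1 := by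
      rw [Finset.sum_const, Finset.card_product, smul_eq_mul, mul_one, Finset.card_univ]
    rw [e2, Finset.card_filter, ← Finset.sum_add_distrib]
    refine Finset.sum_le_sum fun w _ => ?_
    rw [Fintype.sum_bool]
    simp only [Set.mem_ofPred_eq, y, if_true, Bool.false_eq_true, if_false]
    exact tiny _ _
  have hIcard : I.card = 2 * (S.card * (cube.card * Fintype.card Λ)) := by
    simp only [I, Finset.card_product, Finset.card_univ, Fintype.card_bool]
    ring
  have g1 : S.card * (cube.card * Fintype.card Λ) ≤ 3 * ∑ z ∈ S, (both z).card := by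
    have h5 := hω (I.filter fun i => ω ∈ {ω | acc ω i.1.1 (y i) = true ↔ Pr i.1.1 (y i)})
      (fun i hi h => Finset.mem_filter.2 ⟨hi, h⟩)
    rw [hIcard] at h5
    rw [Finset.sum_add_distrib, Finset.sum_const, smul_eq_mul] at hcorrect
    omega
  have g2 : ∀ z ∈ S, S.card * (both z).card ≤ Fintype.card Λ * (M * d * cube.card) +
      Fintype.card Λ * (e * cube.card) + S.card * (cube.card * (Cov z).card) +
      Fintype.card Λ * ((QD ω z).card * d * cube.card) +
      ∑ T : Λ, ∑ r ∈ PD ω, S.card * (cube.filter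
        fun x => eval (plant (v T) (X (u T) - C z) x) r = 0).card := by
    intro z hz
    refine (both_count (acc ω z) q (PD ω) (QD ω z) (out ω z) (hacc ω z) (hPd ω) (hQd ω z) (hP0 ω)
      (hQ0 ω z) S hSq v u z (hSq z hz) (Pr z) (hP z hz) e (hPe z hz) (both z) (fun w hw => ?_)
      (Cov z) (fun T hT => Finset.mem_filter.2 ⟨Finset.mem_univ _, hT⟩)).trans ?_
    · obtain ⟨hw1, hw2⟩ := Finset.mem_filter.1 hw
      exact ⟨(Finset.mem_product.1 hw1).1, hw2⟩
    · have := hM ω z
      gcongr
  have g3 : ∑ z ∈ S, ∑ T : Λ, ∑ r ∈ PD ω, S.card * (cube.filter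
        fun x => eval (plant (v T) (X (u T) - C z) x) r = 0).card ≤
      Fintype.card Λ * ((PD ω).card * (d * (S.card * cube.card))) := by
    rw [Finset.sum_comm]
    have e1 : ∀ T : Λ, ∑ z ∈ S, ∑ r ∈ PD ω, S.card * (cube.filter
        fun x => eval (plant (v T) (X (u T) - C z) x) r = 0).card ≤
        (PD ω).card * (d * (S.card * cube.card)) := by
      intro T
      rw [Finset.sum_comm]
      calc _ ≤ ∑ r ∈ PD ω, d * (S.card * cube.card) := by
            refine Finset.sum_le_sum fun r hr => ?_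
            rw [← Finset.mul_sum]
            exact count_swap (v T) (u T) (huv T) S r (hP0 ω r hr) (hPd ω r hr)
        _ = _ := by rw [Finset.sum_const, smul_eq_mul]
    calc _ ≤ ∑ _T : Λ, (PD ω).card * (d * (S.card * cube.card)) :=
          Finset.sum_le_sum fun T _ => e1 T
      _ = _ := by rw [Finset.sum_const, smul_eq_mul, Finset.card_univ]
  -- combine
  set Λc := Fintype.card Λ with hΛc
  set s := S.card with hs
  set cc := cube.card with hcc
  have g4 : s * ∑ z ∈ S, (both z).card ≤
      ∑ z ∈ S, (2 * (Λc * (M * d * cc)) + Λc * (e * cc) + s * (cc * (Cov z).card)) := by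
    rw [Finset.mul_sum]
    calc ∑ z ∈ S, s * (both z).card ≤ ∑ z ∈ S, (Λc * (M * d * cc) + Λc * (e * cc) +
          s * (cc * (Cov z).card) + Λc * ((QD ω z).card * d * cc) +
          ∑ T : Λ, ∑ r ∈ PD ω, s * (cube.filter
            fun x => eval (plant (v T) (X (u T) - C z) x) r = 0).card) :=
          Finset.sum_le_sum g2
      _ = ∑ z ∈ S, (Λc * (M * d * cc) + Λc * (e * cc) +
          s * (cc * (Cov z).card) + Λc * ((QD ω z).card * d * cc)) +
          ∑ z ∈ S, ∑ T : Λ, ∑ r ∈ PD ω, s * (cube.filter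
            fun x => eval (plant (v T) (X (u T) - C z) x) r = 0).card := Finset.sum_add_distrib
      _ ≤ ∑ z ∈ S, (Λc * (M * d * cc) + Λc * (e * cc) +
          s * (cc * (Cov z).card) + Λc * ((QD ω z).card * d * cc)) +
          ∑ z ∈ S, Λc * ((PD ω).card * d * cc) := by
          refine Nat.add_le_add_left (g3.trans (le_of_eq ?_)) _
          rw [Finset.sum_const, smul_eq_mul]
          ring
      _ = ∑ z ∈ S, (Λc * (M * d * cc) + Λc * (e * cc) +
          s * (cc * (Cov z).card) + Λc * (((PD ω).card + (QD ω z).card) * d * cc)) := by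
          rw [← Finset.sum_add_distrib]
          refine Finset.sum_congr rfl fun z _ => ?_
          ring
      _ ≤ _ := by
          refine Finset.sum_le_sum fun z _ => ?_
          have := hM ω z
          calc _ ≤ Λc * (M * d * cc) + Λc * (e * cc) + s * (cc * (Cov z).card) +
                Λc * (M * d * cc) := by gcongr
            _ = _ := by ring
  have g5 : ∀ z ∈ S, 3 * (2 * (Λc * (M * d * cc)) + Λc * (e * cc) + s * (cc * (Cov z).card)) <
      s * (cc * Λc) := by
    intro z hz
    have k3 : 24 * (M * d) * (Λc * cc) ≤ s * (Λc * cc) := Nat.mul_le_mul_right _ hS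
    have k4 : 12 * e * (Λc * cc) ≤ s * (Λc * cc) := Nat.mul_le_mul_right _ he
    have k5 : s * cc * (6 * (Cov z).card) < s * cc * Λc :=
      Nat.mul_lt_mul_of_pos_left (hcon' z hz) (Nat.mul_pos hSpos hcubepos)
    nlinarith
  have g6 : ∑ z ∈ S, 3 * (2 * (Λc * (M * d * cc)) + Λc * (e * cc) + s * (cc * (Cov z).card)) <
      ∑ z ∈ S, s * (cc * Λc) := Finset.sum_lt_sum_of_nonempty ⟨z₀, hz₀⟩ g5
  rw [← Finset.mul_sum, Finset.sum_const, smul_eq_mul, ← hs] at g6
  have g7 : s * (s * (cc * Λc)) ≤ s * (3 * ∑ z ∈ S, (both z).card) := Nat.mul_le_mul_left _ g1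
  have g8 : s * (3 * ∑ z ∈ S, (both z).card) = 3 * (s * ∑ z ∈ S, (both z).card) := by ring
  omega

end Pool.Agent.W962.Generic
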